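import Pool.Agent.H68.FL.FLFin

set_option autoImplicit false

namespace Pool.Agent.Results.MP_0c60fc_an.HullWithBidisc

open scoped MeasureTheory ENNReal NNReal Topology
open Set Filter Pool.Agent.H68.FL

/-- For every `n ≥ 2`, every point `c` of `ℂⁿ` and every `ε > 0` there is a compact, totally
disconnected set `X` of length `< ε` in the `ε`-ball about `c` whose polynomial hull contains a
closed bidisc with centre `c` (in the first two coordinates) disjoint from `X`. -/
theorem result (n : ℕ) (hn : 2 ≤ n) (c : EuclideanSpace ℂ (Fin n)) (ε : ℝ) (hε : 0 < ε) :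
    ∃ X : Set (EuclideanSpace ℂ (Fin n)),
      IsCompact X ∧ IsTotallyDisconnected X ∧ X ⊆ Metric.ball c ε ∧
      μH[1] X < ENNReal.ofReal ε ∧
      ∃ r : ℝ, 0 < r ∧ ∀ z : EuclideanSpace ℂ (Fin n),
        ‖z ⟨0, by omega⟩ - c ⟨0, by omega⟩‖ ≤ r → ‖z ⟨1, by omega⟩ - c ⟨1, by omega⟩‖ ≤ r →
        (∀ i : Fin n, 2 ≤ i.val → z i = c i) →
        z ∉ X ∧ ∀ p : MvPolynomial (Fin n) ℂ, ∃ x ∈ X,
          ‖MvPolynomial.eval (fun i => z i) p‖ ≤ ‖MvPolynomial.eval (fun i => x i) p‖ := by
  set X0 : Set (ℂ × ℂ) := XX aa ss Z1 with hX0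
  have hXc : IsCompact X0 := XX_compact good
  have htd : IsTotallyDisconnected X0 := XX_totally good
  have hH : μH[1] X0 < ⊤ := XX_haus good T_dist K_dist
  set i0 : Fin n := ⟨0, by omega⟩ with hi0
  set i1 : Fin n := ⟨1, by omega⟩ with hi1
  have h01 : i0 ≠ i1 := by
    intro h
    have := congrArg Fin.val h
    simp [hi0, hi1] at this
  -- the scale
  obtain ⟨δ, hδ, hδ1, hδ2⟩ : ∃ δ : ℝ, 0 < δ ∧ 8 * δ < ε ∧
      ENNReal.ofReal (2 * δ) * μH[1] X0 < ENNReal.ofReal ε := by
    obtain ⟨M, hM⟩ : ∃ M : ℝ, μH[1] X0 = ENNReal.ofReal M ∧ 0 ≤ M :=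
      ⟨(μH[1] X0).toReal, (ENNReal.ofReal_toReal hH.ne).symm, ENNReal.toReal_nonneg⟩
    refine ⟨ε / (16 + 4 * M), by have := hM.2; positivity, ?_, ?_⟩
    · have h1 : 0 < 16 + 4 * M := by have := hM.2; positivity
      rw [← mul_div_assoc, div_lt_iff₀ h1]
      nlinarith [mul_nonneg hε.le hM.2]
    · have h1 : 0 < 16 + 4 * M := by have := hM.2; positivity
      rw [hM.1, ← ENNReal.ofReal_mul (by have := hM.2; positivity)]
      rw [ENNReal.ofReal_lt_ofReal_iff hε]
      have h2 : 2 * (ε / (16 + 4 * M)) * M = 2 * ε * M / (16 + 4 * M) := by ring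
      rw [h2, div_lt_iff₀ h1]
      nlinarith [mul_nonneg hε.le hM.2]
  set g : ℂ × ℂ → EuclideanSpace ℂ (Fin n) := fun q =>
    c + (EuclideanSpace.single i0 ((δ : ℂ) * q.1) + EuclideanSpace.single i1 ((δ : ℂ) * q.2))
    with hg
  have g0 : ∀ q, g q i0 = c i0 + (δ : ℂ) * q.1 := by
    intro q
    simp [hg, h01]
  have g1 : ∀ q, g q i1 = c i1 + (δ : ℂ) * q.2 := by
    intro q
    simp [hg, h01.symm]
  have gi : ∀ q, ∀ i : Fin n, i ≠ i0 → i ≠ i1 → g q i = c i := by
    intro q i h1 h2
    simp [hg, h1, h2]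
  have hδc : (δ : ℂ) ≠ 0 := by exact_mod_cast hδ.ne'
  set e : EuclideanSpace ℂ (Fin n) → ℂ × ℂ := fun v =>
    ((v i0 - c i0) / (δ : ℂ), (v i1 - c i1) / (δ : ℂ)) with he
  have heg : ∀ q, e (g q) = q := by
    intro q
    simp only [he, g0, g1, add_sub_cancel_left]
    rw [mul_div_cancel_left₀ _ hδc, mul_div_cancel_left₀ _ hδc]
  have hec : Continuous e := by
    rw [he]
    fun_prop
  have hgL : LipschitzWith (2 * δ).toNNReal g := by
    apply LipschitzWith.of_dist_le_mul
    intro p q
    rw [Real.coe_toNNReal _ (by positivity), dist_eq_norm]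
    have h1 : g p - g q = EuclideanSpace.single i0 ((δ : ℂ) * (p.1 - q.1)) +
        EuclideanSpace.single i1 ((δ : ℂ) * (p.2 - q.2)) := by
      ext i
      simp only [hg, PiLp.sub_apply, PiLp.add_apply, EuclideanSpace.single_apply]
      split_ifs <;> ring
    rw [h1]
    refine (norm_add_le _ _).trans ?_
    rw [EuclideanSpace.norm_single, EuclideanSpace.norm_single, norm_mul, norm_mul,
      Complex.norm_real, Real.norm_of_nonneg hδ.le]
    have h3 : ‖p.1 - q.1‖ ≤ dist p q := by
      rw [← dist_eq_norm, Prod.dist_eq]; exact le_max_left _ _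
    have h4 : ‖p.2 - q.2‖ ≤ dist p q := by
      rw [← dist_eq_norm, Prod.dist_eq]; exact le_max_right _ _
    nlinarith [mul_le_mul_of_nonneg_left h3 hδ.le, mul_le_mul_of_nonneg_left h4 hδ.le]
  have hginj : Function.Injective g := fun a b hab => by
    rw [← heg a, ← heg b, hab]
  have hYtd : IsTotallyDisconnected (g '' X0) := by
    intro A hA hAc
    have h1 : (e '' A).Subsingleton := by
      apply htd
      · rintro _ ⟨a, ha, rfl⟩
        obtain ⟨x, hx, rfl⟩ := hA ha
        rw [heg]
        exact hx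
      · exact hAc.image e hec.continuousOn
    intro a ha b hb
    have h2 := h1 ⟨a, ha, rfl⟩ ⟨b, hb, rfl⟩
    obtain ⟨x, hx, rfl⟩ := hA ha
    obtain ⟨y, hy, rfl⟩ := hA hb
    rw [heg, heg] at h2
    rw [h2]
  refine ⟨g '' X0, hXc.image hgL.continuous, hYtd, ?_, ?_, t0 * δ / 2,
    by have := t0_pos; positivity, ?_⟩
  · rintro _ ⟨x, hx, rfl⟩
    rw [Metric.mem_ball, dist_eq_norm]
    have h1 : g x - c = EuclideanSpace.single i0 ((δ : ℂ) * x.1) +
        EuclideanSpace.single i1 ((δ : ℂ) * x.2) := by
      simp only [hg, add_sub_cancel_left]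
    rw [h1]
    refine (norm_add_le _ _).trans_lt ?_
    rw [EuclideanSpace.norm_single, EuclideanSpace.norm_single, norm_mul, norm_mul,
      Complex.norm_real, Real.norm_of_nonneg hδ.le]
    obtain ⟨k1, k2, k3⟩ := XX_sub good hx
    have hcc : cc ≤ 1 := by unfold cc; norm_num
    nlinarith [mul_le_mul_of_nonneg_left k2 hδ.le,
      mul_le_mul_of_nonneg_left (k3.trans hcc) hδ.le]
  · refine (hgL.hausdorffMeasure_image_le zero_le_one X0).trans_lt ?_
    rw [ENNReal.rpow_one]
    exact hδ2
  · intro z hz0 hz1 hz2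
    have ht0 := t0_pos
    have ht1 : t0 ≤ 1 / 2 := by unfold t0; norm_num
    have hgz : g (e z) = z := by
      ext i
      by_cases h1 : i = i0
      · rw [h1, g0]
        simp only [he]
        field_simp
        ring
      · by_cases h2 : i = i1
        · rw [h2, g1]
          simp only [he]
          field_simp
          ring
        · rw [gi _ i h1 h2, hz2 i]
          by_contra h3
          have h4 : i.val ≠ 0 := fun h => h1 (Fin.ext (by simp [hi0, h]))
          have h5 : i.val ≠ 1 := fun h => h2 (Fin.ext (by simp [hi1, h]))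
          omega
    have hn1 : ‖(e z).1‖ ≤ t0 / 2 := by
      show ‖(z i0 - c i0) / (δ : ℂ)‖ ≤ _
      rw [norm_div, Complex.norm_real, Real.norm_of_nonneg hδ.le, div_le_iff₀ hδ]
      linarith
    have hn2 : ‖(e z).2‖ ≤ t0 / 2 := by
      show ‖(z i1 - c i1) / (δ : ℂ)‖ ≤ _
      rw [norm_div, Complex.norm_real, Real.norm_of_nonneg hδ.le, div_le_iff₀ hδ]
      linarith
    constructor
    · rintro ⟨x, hx, hxz⟩
      have h1 : x = e z := by rw [← hxz, heg]
      have h2 := (XX_sub good hx).1
      rw [h1] at h2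
      linarith
    · intro p
      have hgd : Differentiable ℂ g := by
        rw [hg]
        refine (differentiable_const c).add (Differentiable.add ?_ ?_)
        · rw [differentiable_euclidean]
          intro i
          by_cases h : i = i0
          · simp only [EuclideanSpace.single_apply, h, if_true]
            fun_prop
          · simp only [EuclideanSpace.single_apply, h, if_false]
            fun_prop
        · rw [differentiable_euclidean]
          intro i
          by_cases h : i = i1
          · simp only [EuclideanSpace.single_apply, h, if_true]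
            fun_prop
          · simp only [EuclideanSpace.single_apply, h, if_false]
            fun_prop
      have hcoord : ∀ i : Fin n, Differentiable ℂ fun q : ℂ × ℂ => g q i :=
        fun i => (differentiable_euclidean.1 hgd) i
      have hd : ∀ p : MvPolynomial (Fin n) ℂ, Differentiable ℂ fun q : ℂ × ℂ =>
          MvPolynomial.eval (fun i => g q i) p := by
        intro p
        induction p using MvPolynomial.induction_on with
        | C a => simp
        | add p q hp1 hq1 =>
          simp only [map_add]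
          exact Differentiable.add hp1 hq1
        | mul_X p i hp1 =>
          simp only [map_mul, MvPolynomial.eval_X]
          exact Differentiable.mul hp1 (hcoord i)
      obtain ⟨x, hx, hle⟩ := exists_big_Q good _ (hd p) (e z)
        ⟨by linarith, by linarith⟩
      refine ⟨g x, ⟨x, hx, rfl⟩, ?_⟩
      rw [hgz] at hle
      exact hle

end Pool.Agent.Results.MP_0c60fc_an.HullWithBidisc
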